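import Pool.Agent.FPPD15.Main

/-!
Bernoulli first-passage percolation on `ℤ^d`, any `p`: the passage time to infinity is almost surely
infinite if `θ(p) = 0`, and it is dominated by a Poisson variable of mean `log (1 / θ(p))` if
`θ(p) > 0`. So `E T(0, ∂B(n)) → ∞` if and only if there is no percolation.
-/

set_option autoImplicit false
set_option linter.deprecated false

open Finset MeasureTheory Filter Topology
open scoped NNReal ENNReal

namespace Pool.Agent.Results.MP_477c23_pr.DivergesIffNoPercolation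

open Pool.Agent.FPP38 Pool.Agent.FPPT Pool.Agent.FPPD15

/-- On `ℤ^d`, `d ≥ 1`, let the edge weights be independent, `0` with probability `p` and `1`
otherwise, let `T n` be the least passage time from the origin to the sup-norm sphere of radius `n`
and `θ` the probability that the open (weight `0`) cluster of the origin reaches every sphere. -/
theorem result :
    ∀ (d : ℕ), 1 ≤ d → ∀ (G : SimpleGraph (Fin d → ℤ)),
      G = SimpleGraph.fromRel (fun x y : Fin d → ℤ => ∑ i, |x i - y i| = 1) →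
      ∀ (p : ℝ≥0) (hp : p ≤ 1) (μ : MeasureTheory.Measure (Sym2 (Fin d → ℤ) → Bool)),
        μ = MeasureTheory.Measure.infinitePi
              (fun _ : Sym2 (Fin d → ℤ) => (PMF.bernoulli p hp).toMeasure) →
      ∀ (T : ℕ → (Sym2 (Fin d → ℤ) → Bool) → ℕ),
        T = (fun (n : ℕ) (ω : Sym2 (Fin d → ℤ) → Bool) =>
          sInf {k : ℕ | ∃ y : Fin d → ℤ,
              (∃ i, |y i| = (n : ℤ)) ∧ (∀ i, |y i| ≤ (n : ℤ)) ∧
              ∃ w : G.Walk 0 y,
                (w.edges.map (fun e => if ω e then (0 : ℕ) else 1)).sum = k}) →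
      ∀ (θ : ℝ),
        θ = (μ {ω : Sym2 (Fin d → ℤ) → Bool | ∀ n : ℕ, ∃ y : Fin d → ℤ,
                (∃ i, |y i| = (n : ℤ)) ∧ (∀ i, |y i| ≤ (n : ℤ)) ∧
                ∃ w : G.Walk 0 y, ∀ e ∈ w.edges, ω e = true}).toReal →
        (0 < θ →
          (∀ k : ℕ, μ {ω | ∃ n, k < T n ω} ≤ ENNReal.ofReal
            (1 - θ * ∑ j ∈ Finset.range (k + 1), (-Real.log θ) ^ j / (j.factorial : ℝ))) ∧
          ∫⁻ ω, (⨆ n, (T n ω : ℝ≥0∞)) ∂μ ≤ ENNReal.ofReal (-Real.log θ)) ∧
        (θ = 0 → ∀ᵐ ω ∂μ, Tendsto (fun n => T n ω) atTop atTop) ∧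
        (Tendsto (fun n => ∫⁻ ω, (T n ω : ℝ≥0∞) ∂μ) atTop (𝓝 ∞) ↔ θ = 0) := by
  rintro d hd G rfl p hp μ rfl T rfl θ hθ
  obtain ⟨i⟩ : Nonempty (Fin d) := ⟨⟨0, hd⟩⟩
  have hθ' : θ = (PB (Fin d → ℤ) p hp (Perc d)).toReal := hθ
  have hfin : PB (Fin d → ℤ) p hp (Perc d) ≠ ∞ := measure_ne_top _ _
  have hpos : 0 < θ → 0 < PB (Fin d → ℤ) p hp (Perc d) := by
    intro h
    rw [hθ'] at h
    exact (ENNReal.toReal_pos_iff.1 h).1
  have hzero : θ = 0 → PB (Fin d → ℤ) p hp (Perc d) = 0 := by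
    intro h
    rw [hθ', ENNReal.toReal_eq_zero_iff] at h
    exact h.resolve_right hfin
  refine ⟨fun h => ?_, fun h => ae_tendsto i hp (hzero h), fun h => ?_, fun h => ?_⟩
  · obtain ⟨h1, h2⟩ := sup_theta i hp (hpos h)
    rw [← hθ'] at h2
    refine ⟨fun k => ?_, h2⟩
    have h3 := h1 k
    rw [← hθ', PT_theta h] at h3
    exact h3
  · by_contra hne
    have h0 : 0 ≤ θ := by rw [hθ']; exact ENNReal.toReal_nonneg
    have h1 : 0 < θ := lt_of_le_of_ne h0 (Ne.symm hne)
    have h2 : (∞ : ℝ≥0∞) ≤ ENNReal.ofReal (-Real.log θ) := by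
      refine le_of_tendsto' h fun n => ?_
      have := (tail_theta hp (hpos h1) n 0).2
      rw [← hθ'] at this
      exact this
    exact absurd h2 (not_le.mpr ENNReal.ofReal_lt_top)
  · exact mean_tendsto i hp (hzero h)

end Pool.Agent.Results.MP_477c23_pr.DivergesIffNoPercolation
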