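import Pool.Agent.FPP38.Arm
import Pool.Agent.FPPT.Tail
import Pool.Agent.FPPT.Bridge
import Pool.Agent.FPPT.As

/-!
Critical first-passage percolation on `ℤ³`: the passage time `T(0, ∂B(n))` is dominated by a
Poisson variable of mean `log n + 3`; in particular `E T(0, ∂B(n)) ≤ log n + 3`, and almost surely
`limsup T(0, ∂B(n)) / log n ≤ 1`.
-/

set_option autoImplicit false
set_option linter.deprecated false

open Finset MeasureTheory Filter
open scoped NNReal ENNReal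

namespace Pool.Agent.Results.MP_477c23_pr.PoissonDomination

open Pool.Agent.FPP38 Pool.Agent.FPPT

theorem arm_lower {pc : ℝ≥0} (hp : pc ≤ 1)
    (hpc : pc = sInf {p : ℝ≥0 | ∃ hp : p ≤ 1, 0 < PB (Fin 3 → ℤ) p hp (Perc 3)})
    {n : ℕ} (hn : 1 ≤ n) :
    0 < arm pc 3 n ∧ - Real.log (arm pc 3 n) ≤ Real.log n + 3 := by
  have h1 : (pc : ℝ) ≤ 1 := by exact_mod_cast hp
  have h2 : 1 ≤ mm pc 3 (2 * n + 1) :=
    one_le_mm hpc ⟨1, le_rfl, perc_one (0 : Fin 3)⟩ (by omega)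
  have h3 := mm_le_sq (d := 3) pc.coe_nonneg h1 (n := 2 * n + 1) (h := n) (by omega)
  have h4 : (((sph (0 : Fin 3 → ℤ) (2 * n + 1)).card : ℕ) : ℝ) ≤ 218 * (n : ℝ) ^ 2 := by
    have g1 := card_sph (d := 3) (2 * n)
    have g2 : (sph (0 : Fin 3 → ℤ) (2 * n + 1)).card ≤ 218 * n ^ 2 := by
      have g3 : (2 * (2 * n + 1) + 1) ^ 3 = 24 * (2 * n + 1) ^ 2 + 2 + (2 * (2 * n) + 1) ^ 3 := by
        ring
      rw [g3] at g1
      have g4 : (sph (0 : Fin 3 → ℤ) (2 * n + 1)).card ≤ 24 * (2 * n + 1) ^ 2 + 2 := by omega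
      refine g4.trans ?_
      nlinarith
    exact_mod_cast g2
  have h5 : 1 ≤ 218 * (n : ℝ) ^ 2 * arm pc 3 n ^ 2 :=
    h2.trans (h3.trans (mul_le_mul_of_nonneg_right h4 (sq_nonneg _)))
  have hn0 : (0 : ℝ) < n := by exact_mod_cast hn
  have harm0 : 0 ≤ arm pc 3 n := Q_nonneg pc.coe_nonneg h1 _ _ _
  have harm : 0 < arm pc 3 n := by
    rcases harm0.lt_or_eq with h | h
    · exact h
    · rw [← h] at h5
      norm_num at h5
  refine ⟨harm, ?_⟩
  have h6 : 0 ≤ Real.log (218 * (n : ℝ) ^ 2 * arm pc 3 n ^ 2) := Real.log_nonneg h5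
  rw [Real.log_mul (by positivity) (by positivity), Real.log_mul (by norm_num) (by positivity),
    Real.log_pow, Real.log_pow] at h6
  have h7 : Real.log 218 ≤ 6 := by
    have g1 : Real.log 218 ≤ Real.log (2 ^ 8) := Real.log_le_log (by norm_num) (by norm_num)
    rw [Real.log_pow] at g1
    have g2 := Real.log_two_lt_d9
    push_cast at g1
    linarith
  push_cast at h6
  linarith

/-- the tail of the passage time at `p_c` -/
theorem tail_bound {pc : ℝ≥0} (hp : pc ≤ 1)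
    (hpc : pc = sInf {p : ℝ≥0 | ∃ hp : p ≤ 1, 0 < PB (Fin 3 → ℤ) p hp (Perc 3)})
    {n : ℕ} (hn : 1 ≤ n) (k : ℕ) :
    PB (Fin 3 → ℤ) pc hp {ω | k < TT 3 n ω} ≤ ENNReal.ofReal (PT (k + 1) (Real.log n + 3)) := by
  have h1 : (pc : ℝ) ≤ 1 := by exact_mod_cast hp
  obtain ⟨h2, h3⟩ := arm_lower hp hpc hn
  refine (measure_TT_gt hp n k).trans (ENNReal.ofReal_le_ofReal ?_)
  refine (tail_le pc.coe_nonneg h1 _ _ _ k h2).trans (PT_mono (k + 1) ?_ h3)
  exact neg_nonneg.mpr (Real.log_nonpos h2.le (Q_le_one pc.coe_nonneg h1 _ _ _))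

/-- **Poisson domination of the critical passage time.** On `ℤ³` with i.i.d. edge weights equal to
`0` with probability `p_c` (critical bond percolation) and `1` otherwise, let `T n` be the least
passage time from the origin to the sup-norm sphere of radius `n`. For `n ≥ 1` it is dominated by
a Poisson variable of mean `log n + 3`, so `E (T n) ≤ log n + 3`; and almost surely
`T n ≤ (1 + ε) log n` for all large `n`, for every `ε > 0`. -/
theorem result :
    ∀ (G : SimpleGraph (Fin 3 → ℤ)),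
      G = SimpleGraph.fromRel (fun x y : Fin 3 → ℤ => ∑ i, |x i - y i| = 1) →
      ∀ (pc : ℝ≥0) (hpc : pc ≤ 1),
        pc = sInf {p : ℝ≥0 | ∃ hp : p ≤ 1,
          0 < MeasureTheory.Measure.infinitePi
                (fun _ : Sym2 (Fin 3 → ℤ) => (PMF.bernoulli p hp).toMeasure)
              {ω : Sym2 (Fin 3 → ℤ) → Bool | ∀ n : ℕ, ∃ y : Fin 3 → ℤ,
                (∃ i, |y i| = (n : ℤ)) ∧ (∀ i, |y i| ≤ (n : ℤ)) ∧
                ∃ w : G.Walk 0 y, ∀ e ∈ w.edges, ω e = true}} →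
        ∀ (μ : MeasureTheory.Measure (Sym2 (Fin 3 → ℤ) → Bool)),
          μ = MeasureTheory.Measure.infinitePi
                (fun _ : Sym2 (Fin 3 → ℤ) => (PMF.bernoulli pc hpc).toMeasure) →
        ∀ (T : ℕ → (Sym2 (Fin 3 → ℤ) → Bool) → ℕ),
          T = (fun (n : ℕ) (ω : Sym2 (Fin 3 → ℤ) → Bool) =>
            sInf {k : ℕ | ∃ y : Fin 3 → ℤ,
                (∃ i, |y i| = (n : ℤ)) ∧ (∀ i, |y i| ≤ (n : ℤ)) ∧
                ∃ w : G.Walk 0 y,
                  (w.edges.map (fun e => if ω e then (0 : ℕ) else 1)).sum = k}) →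
          (∀ n : ℕ, 1 ≤ n → ∀ k : ℕ, μ {ω | k < T n ω} ≤ ENNReal.ofReal
            (1 - Real.exp (-(Real.log (n : ℝ) + 3)) *
              ∑ j ∈ Finset.range (k + 1), (Real.log (n : ℝ) + 3) ^ j / (j.factorial : ℝ))) ∧
          (∀ n : ℕ, 1 ≤ n →
            ∫⁻ ω, (T n ω : ℝ≥0∞) ∂μ ≤ ENNReal.ofReal (Real.log (n : ℝ) + 3)) ∧
          (∀ᵐ ω ∂μ, ∀ ε : ℝ, 0 < ε →
            ∀ᶠ n : ℕ in Filter.atTop, (T n ω : ℝ) ≤ (1 + ε) * Real.log (n : ℝ)) := by
  rintro G rfl pc hpc hsInf μ rfl T rfl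
  refine ⟨fun n hn k => tail_bound hpc hsInf hn k, fun n hn => ?_, ?_⟩
  · obtain ⟨h1, h2⟩ := arm_lower hpc hsInf hn
    exact (lintegral_TT hpc n h1).trans (ENNReal.ofReal_le_ofReal h2)
  · exact AsLim.as_limsup hpc (by norm_num : (0 : ℝ) ≤ 3) fun n hn k => tail_bound hpc hsInf hn k

end Pool.Agent.Results.MP_477c23_pr.PoissonDomination
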